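import Pool.Agent.W203.WS.Stm

/-!
# WS-R2: large frequencies
-/

set_option autoImplicit false

open MeasureTheory Finset

namespace Pool.Agent.W762.WS

open Pool.Agent.W203.WS

theorem add_rp (x y σ : ℝ) (hx : 0 ≤ x) (hy : 0 ≤ y) (hσ : 0 ≤ σ) :
    (x + y) ^ σ ≤ 2 ^ σ * (x ^ σ + y ^ σ) := by
  have h1 : (x + y) ^ σ ≤ (2 * max x y) ^ σ := by
    apply Real.rpow_le_rpow (by positivity) _ hσ
    have := le_max_left x y
    have := le_max_right x y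
    linarith
  rw [Real.mul_rpow (by norm_num) (le_max_of_le_left hx)] at h1
  refine h1.trans ?_
  have h2 : (max x y) ^ σ ≤ x ^ σ + y ^ σ := by
    rcases max_choice x y with h | h
    · rw [h]
      have := Real.rpow_nonneg hy σ
      linarith
    · rw [h]
      have := Real.rpow_nonneg hx σ
      linarith
  have h3 : (0 : ℝ) ≤ 2 ^ σ := by positivity
  exact mul_le_mul_of_nonneg_left h2 h3

theorem kh_nonneg (ε t : ℝ) (hε : 0 < ε) : 0 ≤ Kh ε t := by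
  unfold Kh
  positivity

theorem kh_le (ε t : ℝ) (hε : 0 < ε) : Kh ε t ≤ ε := by
  unfold Kh
  have h1 : Real.exp (-Real.pi * (ε * t) ^ 2) ≤ 1 := by
    rw [Real.exp_le_one_iff]
    have := mul_nonneg Real.pi_pos.le (sq_nonneg (ε * t))
    linarith
  have := mul_le_mul_of_nonneg_left h1 hε.le
  linarith

theorem kh_eq (ε t : ℝ) : Kh ε t = ε * Real.exp (-(Real.pi * ε ^ 2) * t ^ 2) := by
  unfold Kh
  congr 2
  ring

theorem kh_int (ε : ℝ) (hε : 0 < ε) : Integrable (fun t => Kh ε t) := by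
  simp_rw [kh_eq]
  exact (integrable_exp_neg_mul_sq (by have := Real.pi_pos; positivity)).const_mul _

theorem kh_val (ε : ℝ) (hε : 0 < ε) : ∫ t, Kh ε t = 1 := by
  simp_rw [kh_eq]
  rw [integral_const_mul, integral_gaussian]
  have h1 : Real.pi / (Real.pi * ε ^ 2) = (1 / ε) ^ 2 := by
    have := Real.pi_pos
    field_simp
  rw [h1, Real.sqrt_sq (by positivity)]
  field_simp

/-- the tail -/
noncomputable def F (T σ : ℝ) : ℝ → ℝ := (Set.Ioi T).indicator (fun t => t ^ (-σ))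

theorem F_nonneg (T σ : ℝ) (hT : 0 < T) (t : ℝ) : 0 ≤ F T σ t := by
  unfold F
  apply Set.indicator_nonneg
  intro x hx
  exact Real.rpow_nonneg (hT.le.trans (le_of_lt hx)) _

theorem F_int (T σ : ℝ) (hT : 0 < T) (hσ : 1 < σ) : Integrable (F T σ) := by
  unfold F
  rw [integrable_indicator_iff measurableSet_Ioi]
  exact integrableOn_Ioi_rpow_of_lt (by linarith) hT

theorem F_val (T σ : ℝ) (hT : 0 < T) (hσ : 1 < σ) : ∫ t, F T σ t = T ^ (1 - σ) / (σ - 1) := by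
  unfold F
  rw [integral_indicator measurableSet_Ioi, integral_Ioi_rpow_of_lt (by linarith) hT]
  have h1 : -σ + 1 = 1 - σ := by ring
  rw [h1, ← neg_div_neg_eq, neg_neg, neg_sub]

theorem dom (T σ t : ℝ) (ht : t ∈ (Set.Icc (-T) T)ᶜ) (hT : 0 < T) :
    |t| ^ (-σ) ≤ F T σ t + F T σ (-t) := by
  have h : T < |t| := by
    by_contra hc
    push Not at hc
    exact ht (abs_le.1 hc)
  rcases le_or_gt 0 t with h0 | h0
  · rw [abs_of_nonneg h0] at h ⊢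
    have h1 : F T σ t = t ^ (-σ) := Set.indicator_of_mem (Set.mem_Ioi.2 h) _
    have := F_nonneg T σ hT (-t)
    linarith
  · rw [abs_of_neg h0] at h ⊢
    have h1 : F T σ (-t) = (-t) ^ (-σ) := Set.indicator_of_mem (Set.mem_Ioi.2 h) _
    have := F_nonneg T σ hT t
    linarith

theorem main (σ P ε L T Q : ℝ) (hσ : 1 < σ) (hP : 0 ≤ P) (hε : 0 < ε) (hT : 0 < T)
    (hL : 0 ≤ L) (hQ : 0 < Q) (A : ℝ → ℝ) (hA0 : ∀ t, 0 ≤ A t)
    (hA : ∀ t, t ≠ 0 → A t ≤ P + L / (|t| * Q)) :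
    ∫ t in (Set.Icc (-T) T)ᶜ, Kh ε t * A t ^ σ ≤
      2 ^ σ * (P ^ σ + ε * (L / Q) ^ σ * (2 * (T ^ (1 - σ) / (σ - 1)))) := by
  set g : ℝ → ℝ := fun t => 2 ^ σ * (P ^ σ * Kh ε t + ε * (L / Q) ^ σ * (F T σ t + F T σ (-t)))
    with hg
  have hFi := F_int T σ hT hσ
  have hFn : Integrable (fun t => F T σ (-t)) := hFi.comp_neg
  have hgi : Integrable g := by
    refine Integrable.const_mul (Integrable.add ((kh_int ε hε).const_mul _) ?_) _
    exact (hFi.add hFn).const_mul _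
  have hLQ : 0 ≤ L / Q := by positivity
  have hg0 : ∀ t, 0 ≤ g t := by
    intro t
    have h1 := kh_nonneg ε t hε
    have h2 := F_nonneg T σ hT t
    have h3 := F_nonneg T σ hT (-t)
    have h4 := Real.rpow_nonneg hP σ
    have h5 := Real.rpow_nonneg hLQ σ
    rw [hg]
    positivity
  have hval : ∫ t, g t = 2 ^ σ * (P ^ σ + ε * (L / Q) ^ σ * (2 * (T ^ (1 - σ) / (σ - 1)))) := by
    have hK : Integrable (fun t => P ^ σ * Kh ε t) := (kh_int ε hε).const_mul _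
    have hS : Integrable (fun t => ε * (L / Q) ^ σ * (F T σ t + F T σ (-t))) :=
      (hFi.add hFn).const_mul _
    rw [hg, integral_const_mul, integral_add hK hS, integral_const_mul, integral_const_mul,
      kh_val ε hε, integral_add hFi hFn, integral_neg_eq_self (F T σ), F_val T σ hT hσ]
    ring
  rw [← hval]
  refine le_trans ?_ (setIntegral_le_integral (s := (Set.Icc (-T) T)ᶜ) hgi
    (Filter.Eventually.of_forall hg0))
  refine integral_mono_of_nonneg (Filter.Eventually.of_forall fun t => ?_) hgi.integrableOn ?_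
  · exact mul_nonneg (kh_nonneg ε t hε) (Real.rpow_nonneg (hA0 t) _)
  · refine (ae_restrict_iff' measurableSet_Icc.compl).2 (Filter.Eventually.of_forall fun t ht => ?_)
    have ht0 : t ≠ 0 := by
      rintro rfl
      exact ht ⟨by linarith, hT.le⟩
    have habs : 0 < |t| := abs_pos.2 ht0
    have h1 : A t ^ σ ≤ 2 ^ σ * (P ^ σ + (L / (|t| * Q)) ^ σ) :=
      (Real.rpow_le_rpow (hA0 t) (hA t ht0) (by linarith)).trans
        (add_rp _ _ _ hP (by positivity) (by linarith))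
    have h2 : (L / (|t| * Q)) ^ σ = (L / Q) ^ σ * |t| ^ (-σ) := by
      have h3 : L / (|t| * Q) = (L / Q) * |t|⁻¹ := by
        field_simp
      rw [h3, Real.mul_rpow hLQ (by positivity), Real.inv_rpow habs.le, Real.rpow_neg habs.le]
    have h4 := kh_nonneg ε t hε
    have h5 := kh_le ε t hε
    have h6 := dom T σ t ht hT
    have h7 : 0 ≤ (L / Q) ^ σ := Real.rpow_nonneg hLQ _
    have h8 : 0 ≤ |t| ^ (-σ) := Real.rpow_nonneg habs.le _
    have h9 : (0 : ℝ) ≤ 2 ^ σ := by positivity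
    have h10 : Kh ε t * ((L / Q) ^ σ * |t| ^ (-σ)) ≤
        ε * ((L / Q) ^ σ * (F T σ t + F T σ (-t))) :=
      mul_le_mul h5 (mul_le_mul_of_nonneg_left h6 h7) (by positivity) hε.le
    calc Kh ε t * A t ^ σ ≤ Kh ε t * (2 ^ σ * (P ^ σ + (L / (|t| * Q)) ^ σ)) :=
          mul_le_mul_of_nonneg_left h1 h4
      _ = 2 ^ σ * (P ^ σ * Kh ε t + Kh ε t * ((L / Q) ^ σ * |t| ^ (-σ))) := by
          rw [h2]; ring
      _ ≤ 2 ^ σ * (P ^ σ * Kh ε t + ε * ((L / Q) ^ σ * (F T σ t + F T σ (-t)))) :=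
          mul_le_mul_of_nonneg_left (by linarith) h9
      _ = g t := by rw [hg]; ring

theorem t_R2 (h : S_SQ) : S_R2 := by
  intro k s hk hs
  have hs5 : (5 : ℝ) ≤ s := by exact_mod_cast hs
  set σ : ℝ := (s : ℝ) / 2 with hσ
  have hσ1 : 5 / 2 ≤ σ := by rw [hσ]; linarith
  have hC1 : (0 : ℝ) ≤ 2 ^ σ * 3 ^ σ := by positivity
  have hC2 : (0 : ℝ) ≤ 2 ^ σ * ((1 + 2 * s) ^ σ * 3) * 2 := by positivity
  refine ⟨2 ^ σ * 3 ^ σ + 2 ^ σ * ((1 + 2 * s) ^ σ * 3) * 2 + 1, by linarith, ?_⟩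
  intro P ε hP hε _
  have hPR : (1 : ℝ) ≤ P := by exact_mod_cast hP
  have hP0 : (0 : ℝ) < P := by linarith
  have hT : 0 < T0 k P := by unfold T0; positivity
  have hlog : 0 ≤ Real.log (3 * P) := Real.log_nonneg (by linarith)
  have hQ : (0 : ℝ) < (P : ℝ) ^ (k - 2) := by positivity
  have hm := main σ (3 * P) ε (1 + Real.log (3 * P)) (T0 k P) ((P : ℝ) ^ (k - 2))
    (by linarith) (by positivity) hε hT (by linarith) hQ
    (fun t => ∫ θ in (0 : ℝ)..1, ‖S k P t θ‖ ^ 2)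
    (fun t => intervalIntegral.integral_nonneg zero_le_one fun θ _ => by positivity)
    (fun t ht => h k P t hk hP ht)
  refine hm.trans ?_
  -- powers of `P`
  have e1 : (3 * (P : ℝ)) ^ σ = 3 ^ σ * (P : ℝ) ^ σ := Real.mul_rpow (by norm_num) hP0.le
  have e2 : 1 + Real.log (3 * P) ≤ (1 + 2 * s) * (3 * (P : ℝ)) ^ (1 / (2 * (s : ℝ))) := by
    have hx : (0 : ℝ) < 1 / (2 * (s : ℝ)) := by positivity
    have h1 := Real.log_le_rpow_div (x := 3 * (P : ℝ)) (by positivity) hx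
    have h2 : (1 : ℝ) ≤ (3 * (P : ℝ)) ^ (1 / (2 * (s : ℝ))) :=
      Real.one_le_rpow (by linarith) hx.le
    have h3 : (3 * (P : ℝ)) ^ (1 / (2 * (s : ℝ))) / (1 / (2 * (s : ℝ))) =
        2 * s * (3 * (P : ℝ)) ^ (1 / (2 * (s : ℝ))) := by
      field_simp
    rw [h3] at h1
    linarith
  have e3 : (1 + Real.log (3 * P)) ^ σ ≤ (1 + 2 * s) ^ σ * 3 * (P : ℝ) ^ (1 / 4 : ℝ) := by
    have h1 := Real.rpow_le_rpow (by linarith) e2 (by linarith : 0 ≤ σ)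
    rw [Real.mul_rpow (by positivity) (by positivity), ← Real.rpow_mul (by positivity)] at h1
    have h2 : 1 / (2 * (s : ℝ)) * σ = 1 / 4 := by
      rw [hσ]; field_simp; norm_num
    rw [h2, Real.mul_rpow (by norm_num) hP0.le] at h1
    have h3 : (3 : ℝ) ^ (1 / 4 : ℝ) ≤ 3 := by
      calc (3 : ℝ) ^ (1 / 4 : ℝ) ≤ 3 ^ (1 : ℝ) :=
            Real.rpow_le_rpow_of_exponent_le (by norm_num) (by norm_num)
        _ = 3 := Real.rpow_one 3
    refine h1.trans ?_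
    have h4 : 0 ≤ (P : ℝ) ^ (1 / 4 : ℝ) := by positivity
    have h5 : (0 : ℝ) ≤ (1 + 2 * s) ^ σ := by positivity
    calc (1 + 2 * (s : ℝ)) ^ σ * (3 ^ (1 / 4 : ℝ) * (P : ℝ) ^ (1 / 4 : ℝ)) ≤
          (1 + 2 * (s : ℝ)) ^ σ * (3 * (P : ℝ) ^ (1 / 4 : ℝ)) := by gcongr
      _ = _ := by ring
  have e4 : ((P : ℝ) ^ (k - 2)) ^ σ = (P : ℝ) ^ (((k : ℝ) - 2) * σ) := by
    rw [← Real.rpow_natCast, ← Real.rpow_mul hP0.le, Nat.cast_sub hk]
    norm_num
  have e5 : (T0 k P) ^ (1 - σ) = (P : ℝ) ^ ((-(k : ℝ) + 1 / 2) * (1 - σ)) := by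
    unfold T0
    rw [← Real.rpow_mul hP0.le]
  have e6 : ((1 + Real.log (3 * P)) / (P : ℝ) ^ (k - 2)) ^ σ * (T0 k P) ^ (1 - σ) ≤
      (1 + 2 * s) ^ σ * 3 * (P : ℝ) ^ ((s : ℝ) - k - 1 / 2) := by
    rw [Real.div_rpow (by linarith) hQ.le, e4, e5, div_mul_eq_mul_div,
      div_le_iff₀ (by positivity)]
    calc (1 + Real.log (3 * P)) ^ σ * (P : ℝ) ^ ((-(k : ℝ) + 1 / 2) * (1 - σ)) ≤
          ((1 + 2 * s) ^ σ * 3 * (P : ℝ) ^ (1 / 4 : ℝ)) *
            (P : ℝ) ^ ((-(k : ℝ) + 1 / 2) * (1 - σ)) :=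
          mul_le_mul_of_nonneg_right e3 (by positivity)
      _ = (1 + 2 * s) ^ σ * 3 * (P : ℝ) ^ (1 / 4 + (-(k : ℝ) + 1 / 2) * (1 - σ)) := by
          rw [Real.rpow_add hP0]; ring
      _ ≤ (1 + 2 * s) ^ σ * 3 * (P : ℝ) ^ (((s : ℝ) - k - 1 / 2) + ((k : ℝ) - 2) * σ) := by
          apply mul_le_mul_of_nonneg_left _ (by positivity)
          apply Real.rpow_le_rpow_of_exponent_le hPR
          have h2 : (s : ℝ) = 2 * σ := by rw [hσ]; ring
          rw [h2]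
          nlinarith
      _ = _ := by rw [Real.rpow_add hP0]; ring
  have e7 : 0 ≤ ((1 + Real.log (3 * P)) / (P : ℝ) ^ (k - 2)) ^ σ :=
    Real.rpow_nonneg (div_nonneg (by linarith) hQ.le) _
  have e8 : 0 ≤ (T0 k P) ^ (1 - σ) := Real.rpow_nonneg hT.le _
  have e9 : 2 * ((T0 k P) ^ (1 - σ) / (σ - 1)) ≤ 2 * (T0 k P) ^ (1 - σ) := by
    have : (T0 k P) ^ (1 - σ) / (σ - 1) ≤ (T0 k P) ^ (1 - σ) :=
      div_le_self e8 (by linarith)
    linarith
  have e10 : ε * ((1 + Real.log (3 * P)) / (P : ℝ) ^ (k - 2)) ^ σ *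
      (2 * ((T0 k P) ^ (1 - σ) / (σ - 1))) ≤
      ε * (2 * ((1 + 2 * s) ^ σ * 3 * (P : ℝ) ^ ((s : ℝ) - k - 1 / 2))) := by
    calc ε * ((1 + Real.log (3 * P)) / (P : ℝ) ^ (k - 2)) ^ σ *
        (2 * ((T0 k P) ^ (1 - σ) / (σ - 1))) ≤
        ε * ((1 + Real.log (3 * P)) / (P : ℝ) ^ (k - 2)) ^ σ * (2 * (T0 k P) ^ (1 - σ)) :=
          mul_le_mul_of_nonneg_left e9 (mul_nonneg hε.le e7)
      _ = ε * (2 * (((1 + Real.log (3 * P)) / (P : ℝ) ^ (k - 2)) ^ σ * (T0 k P) ^ (1 - σ))) := by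
          ring
      _ ≤ _ := by
          apply mul_le_mul_of_nonneg_left _ hε.le
          linarith
  have hX : 0 ≤ ε * (P : ℝ) ^ ((s : ℝ) - k - 1 / 2) := by positivity
  have hY : 0 ≤ (P : ℝ) ^ σ := by positivity
  have h2σ : (0 : ℝ) ≤ 2 ^ σ := by positivity
  calc 2 ^ σ * ((3 * (P : ℝ)) ^ σ + ε * ((1 + Real.log (3 * P)) / (P : ℝ) ^ (k - 2)) ^ σ *
        (2 * ((T0 k P) ^ (1 - σ) / (σ - 1)))) ≤
      2 ^ σ * (3 ^ σ * (P : ℝ) ^ σ +
        ε * (2 * ((1 + 2 * s) ^ σ * 3 * (P : ℝ) ^ ((s : ℝ) - k - 1 / 2)))) := by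
        apply mul_le_mul_of_nonneg_left _ h2σ
        rw [e1]
        linarith
    _ = (2 ^ σ * 3 ^ σ) * (P : ℝ) ^ σ + (2 ^ σ * ((1 + 2 * s) ^ σ * 3) * 2) *
        (ε * (P : ℝ) ^ ((s : ℝ) - k - 1 / 2)) := by ring
    _ ≤ _ := by
        have h1 := mul_nonneg hC1 hX
        have h2 := mul_nonneg hC2 hY
        nlinarith

end Pool.Agent.W762.WS
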